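import Pool.Agent.helper52.ED.Spec
import Pool.Agent.helper83.PW.PIW

/-!
# ed:PCK
-/

set_option autoImplicit false

open Complex Metric Set Filter Topology MeasureTheory
open Pool.Agent.helper98.ILF Pool.Agent.helper16.Multibrot HY

noncomputable section

namespace ED

theorem PCK (hKO0 : V3.KO0_stmt) (hKO3 : V3.KO3_stmt) : PCK_stmt := by
  obtain ⟨p, hp, h⟩ := PW.PIW hKO0 hKO3
  obtain ⟨C, hC, hk⟩ := h (1 / 2) (by norm_num) (by norm_num)
  exact ⟨C, p, hC, hp, hk⟩

end ED
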